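import Pool.Agent.H31.ST.Basic

/-! Module FRAME of MP_0b97f5_mp.  helper24 -/

open Set Filter Topology Matrix

noncomputable section

namespace H31.ST.H24

open H31.ST

/-- Cayley–Hamilton for `2 × 2` matrices of determinant one -/
theorem ch (Q : Mat) (h : Q.det = 1) : Q * Q = Q.trace • Q - 1 := by
  rw [Matrix.det_fin_two] at h
  ext i j
  fin_cases i <;> fin_cases j <;>
    simp [Matrix.mul_apply, Fin.sum_univ_two, Matrix.trace_fin_two] <;> nlinarith

theorem pow_add_two (Q : Mat) (h : Q.det = 1) (m : ℕ) :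
    Q ^ (m + 2) = Q.trace • Q ^ (m + 1) - Q ^ m := by
  rw [pow_add, pow_two, ch Q h, mul_sub, mul_smul_comm, mul_one, ← pow_succ]

theorem tr_rec (A Q : Mat) (h : Q.det = 1) (m : ℕ) :
    (A * Q ^ (m + 2)).trace = Q.trace * (A * Q ^ (m + 1)).trace - (A * Q ^ m).trace := by
  rw [pow_add_two Q h m, mul_sub, mul_smul_comm, Matrix.trace_sub, Matrix.trace_smul, smul_eq_mul]

theorem S_neg (lam y x : ℝ) : S lam (-y) x = S lam y x := by
  unfold S; congr 1; ring

theorem S_neg' (lam y x : ℝ) : S lam y (-x) = S lam y x := by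
  unfold S; congr 1; ring

theorem S_comm (lam y x : ℝ) : S lam y x = S lam x y := by
  unfold S; congr 1; ring

/-- `T_m(tr P, tr Q) = tr (P Q^m)` -/
theorem T_pos {lam : ℝ} {P Q : Mat} (hQ : Q.det = 1)
    (hz : (P * Q).trace = zz lam P.trace Q.trace) (m : ℕ) :
    T lam P.trace Q.trace m = (P * Q ^ m).trace := by
  induction m using Nat.strong_induction_on with
  | _ m ih =>
    match m with
    | 0 => simp [T]
    | 1 => simp [T, hz]
    | (m + 2) =>
      rw [T, ih m (by omega), ih (m + 1) (by omega), tr_rec P Q hQ m]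

/-- `T_{m+1}(-tr P, tr Q) = - tr (N Q^m)` -/
theorem T_neg {lam : ℝ} {P N : Mat} (hP : P.det = 1) (hN : N.det = 1)
    (hz : (P * (N * P)).trace = zz lam P.trace (N * P).trace) (m : ℕ) :
    T lam (-P.trace) (N * P).trace (m + 1) = - (N * (N * P) ^ m).trace := by
  have hQ : (N * P).det = 1 := by rw [Matrix.det_mul, hP, hN, one_mul]
  -- tr (Q adj P) = x y - tr (P Q)
  have h1 : N.trace = P.trace * (N * P).trace - (P * (N * P)).trace := by
    have hP' : P * P = P.trace • P - 1 := ch P hP
    have : (P * (N * P)).trace = (N * (P * P)).trace := by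
      rw [Matrix.trace_mul_comm, Matrix.mul_assoc]
    rw [this, hP', mul_sub, mul_smul_comm, Matrix.trace_sub, Matrix.trace_smul, smul_eq_mul, mul_one]
    ring
  have h2 : (N * (N * P)).trace = (N * P).trace * N.trace - P.trace := by
    have hN' : N * N = N.trace • N - 1 := ch N hN
    rw [← Matrix.mul_assoc, hN', sub_mul, smul_mul_assoc, Matrix.trace_sub, Matrix.trace_smul,
      smul_eq_mul, one_mul]
    ring
  have hS : zz lam (-P.trace) (N * P).trace
      = (-((N * P).trace * P.trace) - S lam P.trace (N * P).trace) / 2 := by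
    unfold zz; rw [S_neg]; ring
  have e1 : T lam (-P.trace) (N * P).trace 1 = - N.trace := by
    rw [T, hS, h1, hz]
    unfold zz
    ring
  have e2 : T lam (-P.trace) (N * P).trace 2 = - (N * (N * P)).trace := by
    rw [T, e1, T, h2]
    ring
  induction m using Nat.strong_induction_on with
  | _ m ih =>
    match m with
    | 0 => simpa using e1
    | 1 => simpa using e2
    | (m + 2) =>
      have : m + 2 + 1 = (m + 1) + 2 := by ring
      rw [this, T, ih (m + 1) (by omega), ih m (by omega), tr_rec N (N * P) hQ m]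
      ring

/-- the traces of the new matrix -/
theorem step_trace {lam : ℝ} {P N : Mat} (hP : P.det = 1) (hN : N.det = 1)
    (hz : (P * (N * P)).trace = zz lam P.trace (N * P).trace) (s : Sym) (hs : s.Valid) :
    ((stepM s P N).2 * (stepM s P N).1).trace = X lam s P.trace (N * P).trace ∧
    ((N * P) * ((stepM s P N).2 * (stepM s P N).1)).trace
      = (-1) ^ s.i * T lam (s.e * P.trace) (N * P).trace (s.m + 1) := by
  have hQ : (N * P).det = 1 := by rw [Matrix.det_mul, hP, hN, one_mul]
  obtain ⟨pos, m, i⟩ := s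
  obtain ⟨hm, hi1, hi2⟩ := hs
  simp only at hm hi1 hi2
  obtain ⟨k, rfl⟩ : ∃ k, m = k + 2 := ⟨m - 2, by omega⟩
  cases pos with
  | true =>
    have e1 : (stepM ⟨true, k + 2, i⟩ P N).2 * (stepM ⟨true, k + 2, i⟩ P N).1
        = ((-1 : ℝ) ^ i) • (P * (N * P) ^ (k + 2)) := by
      simp only [stepM, if_true]
      rw [smul_mul_assoc, Matrix.mul_assoc P, ← pow_succ]
      congr 3
    rw [e1]
    refine ⟨?_, ?_⟩
    · rw [Matrix.trace_smul, smul_eq_mul]
      simp only [X, Sym.e, if_true, one_mul]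
      rw [T_pos hQ hz]
    · rw [mul_smul_comm, Matrix.trace_smul, smul_eq_mul]
      simp only [Sym.e, if_true, one_mul]
      rw [T_pos hQ hz, Matrix.trace_mul_comm (N * P), Matrix.mul_assoc P, ← pow_succ]
  | false =>
    have e1 : (stepM ⟨false, k + 2, i⟩ P N).2 * (stepM ⟨false, k + 2, i⟩ P N).1
        = ((-1 : ℝ) ^ (i + 1)) • (N * (N * P) ^ (k + 1)) := by
      simp only [stepM, Bool.false_eq_true, if_false]
      rw [smul_mul_assoc, Matrix.mul_assoc N, ← pow_succ]
      congr 3
    rw [e1]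
    refine ⟨?_, ?_⟩
    · rw [Matrix.trace_smul, smul_eq_mul]
      simp only [X, Sym.e, Bool.false_eq_true, if_false, neg_mul, one_mul]
      rw [T_neg hP hN hz (k + 1), pow_succ]
      ring
    · rw [mul_smul_comm, Matrix.trace_smul, smul_eq_mul]
      simp only [Sym.e, Bool.false_eq_true, if_false, neg_mul, one_mul]
      rw [show k + 2 + 1 = (k + 2) + 1 from rfl, T_neg hP hN hz (k + 2),
        Matrix.trace_mul_comm (N * P), Matrix.mul_assoc N, ← pow_succ, pow_succ]
      ring

/-- the orientation lemma -/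
theorem orient {A B : Mat} (hA : A.det = 1) (hB : B.det = 1) (tA : |A.trace| < 2)
    (tB : |B.trace| < 2) (h10 : 0 < A 1 0) (h : 2 * (A * B).trace < A.trace * B.trace) :
    0 < B 1 0 := by
  rw [Matrix.det_fin_two] at hA hB
  rw [Matrix.trace_fin_two] at tA tB h
  rw [Matrix.trace_fin_two, Matrix.trace_fin_two, Matrix.mul_apply, Matrix.mul_apply,
    Fin.sum_univ_two, Fin.sum_univ_two] at h
  set a := A 0 0; set b := A 0 1; set c := A 1 0; set d := A 1 1
  set a' := B 0 0; set b' := B 0 1; set c' := B 1 0; set d' := B 1 1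
  have h1 : (a + d) ^ 2 < 4 := by
    have := abs_lt.1 tA
    nlinarith
  have h2 : (a' + d') ^ 2 < 4 := by
    have := abs_lt.1 tB
    nlinarith
  have q1 : ((a - d) / 2) ^ 2 + b * c < 0 := by nlinarith
  have q2 : ((a' - d') / 2) ^ 2 + b' * c' < 0 := by nlinarith
  have hb : b < 0 := by
    by_contra hb
    have : 0 ≤ b * c := mul_nonneg (not_lt.1 hb) h10.le
    nlinarith [sq_nonneg ((a - d) / 2)]
  by_contra hc
  have hc0 : c' < 0 := by
    rcases lt_or_eq_of_le (not_lt.1 hc) with h3 | h3
    · exact h3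
    · rw [h3] at q2
      nlinarith [sq_nonneg ((a' - d') / 2)]
  have hb' : 0 < b' := by
    by_contra hb'
    have : 0 ≤ b' * c' := mul_nonneg_of_nonpos_of_nonpos (not_lt.1 hb') hc0.le
    nlinarith [sq_nonneg ((a' - d') / 2)]
  have hu : 0 < b * c' := mul_pos_of_neg_of_neg hb hc0
  have hv : 0 < c * b' := mul_pos h10 hb'
  set p := (a - d) / 2
  set p' := (a' - d') / 2
  have hprod : (p * p') ^ 2 < (b * c') * (c * b') := by
    have e1 : p ^ 2 < -(b * c) := by linarith
    have e2 : p' ^ 2 < -(b' * c') := by linarith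
    have : p ^ 2 * p' ^ 2 < (-(b * c)) * (-(b' * c')) := by
      apply mul_lt_mul'' e1 e2 (sq_nonneg _) (sq_nonneg _)
    calc (p * p') ^ 2 = p ^ 2 * p' ^ 2 := by ring
      _ < _ := this
      _ = _ := by ring
  have hlt : 2 * (2 * (p * p') + (b * c' + c * b')) < 0 := by
    have : 2 * (2 * (p * p') + (b * c' + c * b'))
        = 2 * (a * a' + b * c' + (c * b' + d * d')) - (a + d) * (a' + d') := by
      simp only [p, p']; ring
    rw [this]
    linarith
  nlinarith [sq_nonneg (b * c' - c * b')]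

theorem FRAME (hT : T_TRIG) : T_FRAME := by
  intro lam hl P N hF s hs hR
  obtain ⟨hP, hN, hz, hor⟩ := hF
  have hQ : (N * P).det = 1 := by rw [Matrix.det_mul, hP, hN, one_mul]
  obtain ⟨_, hS, _, _, _, _, _, _, _, hsheet, _⟩ := hT lam hl
  obtain ⟨htr, htr2⟩ := step_trace hP hN hz s hs
  have hfst : (stepM s P N).1 = N * P := by unfold stepM; split <;> rfl
  have hpow : ∀ k : ℕ, ((-1 : ℝ) ^ k) ^ 2 = 1 := by
    intro k; rw [← pow_mul, mul_comm, pow_mul]; norm_num
  have hdet2 : (stepM s P N).2.det = 1 := by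
    unfold stepM
    split
    · simp only [Matrix.det_smul, Fintype.card_fin, Matrix.det_mul, Matrix.det_pow, hP, hN, hpow]
      norm_num
    · simp only [Matrix.det_smul, Fintype.card_fin, Matrix.det_mul, Matrix.det_pow, hP, hN, hpow]
      norm_num
  have hsh := hsheet s hs P.trace (N * P).trace hR
  obtain ⟨r1, r2, r3, r4, r5⟩ := hR
  simp only at r1 r2 r3 r4 r5
  have hz' : ((stepM s P N).1 * ((stepM s P N).2 * (stepM s P N).1)).trace
      = zz lam (stepM s P N).1.trace ((stepM s P N).2 * (stepM s P N).1).trace := by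
    rw [htr, hfst]
    rw [hfst] at htr2
    rw [htr2, ← hsh]
  refine ⟨⟨?_, hdet2, hz', ?_⟩, ?_⟩
  · rw [hfst, hQ]
  · have hdetB : ((stepM s P N).2 * (stepM s P N).1).det = 1 := by
      rw [Matrix.det_mul, hdet2, hfst, hQ, one_mul]
    apply orient hQ hdetB r2 (by rw [htr]; exact r5) hor
    rw [hfst] at hz'
    rw [hfst, hz']
    unfold zz
    have := (hS (N * P).trace ((stepM s P N).2 * (N * P)).trace r2.le (by
      have := htr; rw [hfst] at this; rw [this]; exact r5.le)).1
    linarith
  · rw [htr, hfst]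
    rfl

end H31.ST.H24
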