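import Pool.Agent.H24.ST.FRAME

/-! Module JAC of MP_0b97f5_mp.  helper24 -/

open Set Filter Topology Matrix

noncomputable section

namespace H31.ST.H24

open H31.ST

/-- the linear functional `(a, b) ↦ c a + d b` -/
def lf (c d : ℝ) : ℝ × ℝ →L[ℝ] ℝ :=
  c • ContinuousLinearMap.fst ℝ ℝ ℝ + d • ContinuousLinearMap.snd ℝ ℝ ℝ

theorem lf_apply (c d : ℝ) (v : ℝ × ℝ) : lf c d v = c * v.1 + d * v.2 := by
  simp [lf]

theorem ext_lf {c d c' d' : ℝ} (h1 : c = c') (h2 : d = d') : lf c d = lf c' d' := by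
  rw [h1, h2]

/-- derivative of `S` -/
theorem hasF_S {lam : ℝ} (y x : ℝ) (hS : 0 < S lam y x) :
    HasFDerivAt (fun p : ℝ × ℝ => S lam p.1 p.2)
      (lf (-(y * (4 - x ^ 2)) / S lam y x) (-(x * (4 - y ^ 2)) / S lam y x)) (y, x) := by
  have h1 : HasFDerivAt (fun p : ℝ × ℝ => (4 - p.2 ^ 2) * (4 - p.1 ^ 2) + 4 * lam ^ 2)
      (lf (-(2 * y * (4 - x ^ 2))) (-(2 * x * (4 - y ^ 2)))) (y, x) := by
    have hf : HasFDerivAt (fun p : ℝ × ℝ => p.1) (ContinuousLinearMap.fst ℝ ℝ ℝ) (y, x) :=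
      hasFDerivAt_fst
    have hs : HasFDerivAt (fun p : ℝ × ℝ => p.2) (ContinuousLinearMap.snd ℝ ℝ ℝ) (y, x) :=
      hasFDerivAt_snd
    have := (((hs.pow 2).const_sub 4).mul ((hf.pow 2).const_sub 4)).add_const (4 * lam ^ 2)
    refine HasFDerivAt.congr_fderiv this ?_
    ext v <;> simp [lf] <;> ring
  have hne : (4 - x ^ 2) * (4 - y ^ 2) + 4 * lam ^ 2 ≠ 0 := by
    intro h
    unfold S at hS
    rw [h, Real.sqrt_zero] at hS
    exact lt_irrefl _ hS
  have h2 := h1.sqrt hne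
  refine HasFDerivAt.congr_fderiv h2 ?_
  ext v <;> simp [lf, S] <;> field_simp

theorem hasF_zz {lam : ℝ} (y x : ℝ) (hS : 0 < S lam y x) :
    HasFDerivAt (fun p : ℝ × ℝ => zz lam p.1 p.2)
      (lf ((x + y * (4 - x ^ 2) / S lam y x) / 2) ((y + x * (4 - y ^ 2) / S lam y x) / 2))
      (y, x) := by
  have hf : HasFDerivAt (fun p : ℝ × ℝ => p.1) (ContinuousLinearMap.fst ℝ ℝ ℝ) (y, x) :=
    hasFDerivAt_fst
  have hs : HasFDerivAt (fun p : ℝ × ℝ => p.2) (ContinuousLinearMap.snd ℝ ℝ ℝ) (y, x) :=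
    hasFDerivAt_snd
  have h := (((hs.mul hf).sub (hasF_S y x hS)).const_mul (2⁻¹ : ℝ))
  have e : (fun p : ℝ × ℝ => zz lam p.1 p.2)
      = fun p : ℝ × ℝ => 2⁻¹ * (p.2 * p.1 - S lam p.1 p.2) := by
    funext p; unfold zz; ring
  rw [e]
  refine HasFDerivAt.congr_fderiv h ?_
  ext v <;> simp [lf] <;> ring

/-- derivative of `T_m` : `S ∂_y T_{m+1} = -(T_{m+2} - T_m)` etc. -/
theorem hasF_T {lam : ℝ} (y x : ℝ) (hS : 0 < S lam y x) (m : ℕ) :
    ∃ c d : ℝ, HasFDerivAt (fun p : ℝ × ℝ => T lam p.1 p.2 m) (lf c d) (y, x) ∧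
      S lam y x * c = -(2 * T lam y x (m + 1) - x * T lam y x m) := by
  induction m using Nat.strong_induction_on with
  | _ m ih =>
    match m with
    | 0 =>
      refine ⟨1, 0, ?_, ?_⟩
      · have hf : HasFDerivAt (fun p : ℝ × ℝ => p.1) (ContinuousLinearMap.fst ℝ ℝ ℝ) (y, x) :=
          hasFDerivAt_fst
        simp only [T]
        refine HasFDerivAt.congr_fderiv hf ?_
        ext v <;> simp [lf]
      · simp only [T, zz]; ring
    | 1 =>
      refine ⟨(x + y * (4 - x ^ 2) / S lam y x) / 2, (y + x * (4 - y ^ 2) / S lam y x) / 2, ?_, ?_⟩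
      · simp only [T]
        exact hasF_zz y x hS
      · simp only [T, zz]
        have : S lam y x ≠ 0 := hS.ne'
        field_simp
        have hS2 : S lam y x ^ 2 = (4 - x ^ 2) * (4 - y ^ 2) + 4 * lam ^ 2 := by
          unfold S
          apply Real.sq_sqrt
          by_contra h
          unfold S at hS
          rw [Real.sqrt_eq_zero_of_nonpos (not_le.1 h).le] at hS
          exact lt_irrefl _ hS
        ring
    | (m + 2) =>
      obtain ⟨c0, d0, h0, e0⟩ := ih m (by omega)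
      obtain ⟨c1, d1, h1, e1⟩ := ih (m + 1) (by omega)
      have hs : HasFDerivAt (fun p : ℝ × ℝ => p.2) (ContinuousLinearMap.snd ℝ ℝ ℝ) (y, x) :=
        hasFDerivAt_snd
      refine ⟨x * c1 - c0, x * d1 + T lam y x (m + 1) - d0, ?_, ?_⟩
      · have := (hs.mul h1).sub h0
        simp only [T]
        refine HasFDerivAt.congr_fderiv this ?_
        ext v <;> simp [lf] <;> ring
      · have e3 : T lam y x (m + 2 + 1) = x * T lam y x (m + 2) - T lam y x (m + 1) := rfl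
        have e2 : T lam y x (m + 2) = x * T lam y x (m + 1) - T lam y x m := rfl
        rw [mul_sub, e0, show S lam y x * (x * c1) = x * (S lam y x * c1) by ring, e1, e3]
        have e2' : T lam y x (m + 1 + 1) = x * T lam y x (m + 1) - T lam y x m := rfl
        rw [e2']
        ring

/-- derivative of the new trace -/
theorem hasF_X {lam : ℝ} (s : Sym) (y x : ℝ) (hS : 0 < S lam y x) :
    ∃ c d : ℝ, HasFDerivAt (fun p : ℝ × ℝ => X lam s p.1 p.2) (lf c d) (y, x) ∧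
      |c| * S lam y x = |2 * ((-1) ^ s.i * T lam (s.e * y) x (s.m + 1)) - x * X lam s y x| := by
  have hSe : S lam (s.e * y) x = S lam y x := by
    unfold Sym.e
    split
    · rw [one_mul]
    · rw [neg_one_mul, S_neg]
  obtain ⟨c, d, h, e⟩ := hasF_T (lam := lam) (s.e * y) x (by rw [hSe]; exact hS) s.m
  refine ⟨(-1) ^ s.i * (c * s.e), (-1) ^ s.i * d, ?_, ?_⟩
  · have hg : HasFDerivAt (fun p : ℝ × ℝ => ((s.e * p.1, p.2) : ℝ × ℝ))
        ((s.e • ContinuousLinearMap.fst ℝ ℝ ℝ).prod (ContinuousLinearMap.snd ℝ ℝ ℝ)) (y, x) := by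
      have hf : HasFDerivAt (fun p : ℝ × ℝ => s.e * p.1) (s.e • ContinuousLinearMap.fst ℝ ℝ ℝ)
          (y, x) := (hasFDerivAt_fst (𝕜 := ℝ) (E := ℝ) (F := ℝ) (p := (y, x))).const_mul s.e
      have hs : HasFDerivAt (fun p : ℝ × ℝ => p.2) (ContinuousLinearMap.snd ℝ ℝ ℝ) (y, x) :=
        hasFDerivAt_snd
      exact hf.prodMk hs
    have h' : HasFDerivAt (fun p : ℝ × ℝ => T lam p.1 p.2 s.m) (lf c d)
        ((fun p : ℝ × ℝ => ((s.e * p.1, p.2) : ℝ × ℝ)) (y, x)) := h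
    have := (h'.comp (y, x) hg).const_mul ((-1 : ℝ) ^ s.i)
    unfold X
    refine HasFDerivAt.congr_fderiv this ?_
    ext v <;> simp [lf] <;> ring
  · rw [abs_mul, abs_mul, s.abs_e, mul_one, abs_pow, abs_neg, abs_one, one_pow, one_mul]
    rw [hSe] at e
    have h1 : |c| * S lam y x = |S lam y x * c| := by
      rw [abs_mul, abs_of_pos hS, mul_comm]
    rw [h1, e]
    have h2 : 2 * ((-1) ^ s.i * T lam (s.e * y) x (s.m + 1)) - x * X lam s y x
        = (-1) ^ s.i * (2 * T lam (s.e * y) x (s.m + 1) - x * T lam (s.e * y) x s.m) := by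
      unfold X; ring
    rw [h2, abs_neg, abs_mul, abs_pow, abs_neg, abs_one, one_pow, one_mul]

theorem JAC (hT : T_TRIG) : T_JAC := by
  intro lam hl w
  obtain ⟨_, hS, _, _, _, _, _, _, _, hsheet, _⟩ := hT lam hl
  induction w with
  | nil =>
    intro _ p hp hR
    refine ⟨1, 0, 0, 1, ?_, ?_⟩
    · have : (ContinuousLinearMap.prod
        ((1:ℝ) • ContinuousLinearMap.fst ℝ ℝ ℝ + (0:ℝ) • ContinuousLinearMap.snd ℝ ℝ ℝ)
        ((0:ℝ) • ContinuousLinearMap.fst ℝ ℝ ℝ + (1:ℝ) • ContinuousLinearMap.snd ℝ ℝ ℝ))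
        = ContinuousLinearMap.id ℝ (ℝ × ℝ) := by
        ext v <;> simp
      rw [this]
      exact hasFDerivAt_id p
    · simp
  | cons s w ih =>
    intro hw p hp hR
    obtain ⟨hs, hw'⟩ := VW_cons.1 hw
    obtain ⟨y, x⟩ := p
    obtain ⟨hR1, hR2⟩ := hR
    obtain ⟨r1, r2, r3, r4, r5⟩ := id hR1
    simp only at r1 r2 r3 r4 r5 hp
    have hS0 := (hS y x r1 r2.le).1
    obtain ⟨c, d, hX, eX⟩ := hasF_X s y x hS0
    obtain ⟨A₁, A₂, B₁, B₂, hF, hdet⟩ := ih hw' (stepP lam s (y, x)) r2 hR2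
    have hstep : HasFDerivAt (stepP lam s) ((ContinuousLinearMap.snd ℝ ℝ ℝ).prod (lf c d))
        (y, x) := by
      have hs : HasFDerivAt (fun p : ℝ × ℝ => p.2) (ContinuousLinearMap.snd ℝ ℝ ℝ) (y, x) :=
        hasFDerivAt_snd
      exact hs.prodMk hX
    have hcomp := hF.comp (y, x) hstep
    refine ⟨A₂ * c, A₁ + A₂ * d, B₂ * c, B₁ + B₂ * d, ?_, ?_⟩
    · have e : run lam (s :: w) = run lam w ∘ stepP lam s := by
        funext p; rfl
      rw [e]
      refine HasFDerivAt.congr_fderiv hcomp ?_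
      ext v <;> simp [lf] <;> ring
    · have e1 : A₂ * c * (B₁ + B₂ * d) - (A₁ + A₂ * d) * (B₂ * c)
          = -(c * (A₁ * B₂ - A₂ * B₁)) := by ring
      rw [e1, abs_neg, abs_mul]
      have hsh := hsheet s hs y x hR1
      have hSx := (hS x (X lam s y x) r2.le r5.le).1
      have e2 : |c| * S lam y x = S lam x (X lam s y x) := by
        rw [eX, ← hsh]
        unfold zz
        rw [show 2 * ((X lam s y x * x - S lam x (X lam s y x)) / 2) - x * X lam s y x
          = - S lam x (X lam s y x) by ring, abs_neg, abs_of_pos hSx]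
      have e3 : |c| * |A₁ * B₂ - A₂ * B₁| * S lam y x
          = |A₁ * B₂ - A₂ * B₁| * (|c| * S lam y x) := by ring
      simp only
      rw [e3, e2]
      exact hdet

end H31.ST.H24
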