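import Pool.Agent.H24.ST.FRAME

/-! Modules MATDER and MATCURVE of MP_0b97f5_mp.  helper24 -/

open Set Filter Topology Matrix

noncomputable section

namespace H31.ST.H24

open H31.ST

theorem SPos.toPos {A : ℝ → Mat} {t d : ℝ} (h : SPos A t d) : Pos A t d := by
  obtain ⟨H, h1, h2, h3, _, h5, h6, h7⟩ := h
  exact ⟨H, h1, h2, h3, h5, h6, h7⟩

theorem SPos.mono {A : ℝ → Mat} {t d e : ℝ} (h : SPos A t d) (h0 : 0 ≤ e) (he : e ≤ d) :
    SPos A t e := by
  obtain ⟨H, h1, h2, h3, h4, h5, h6, h7⟩ := h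
  exact ⟨H, h1, h2, h3, h4, h0, (by nlinarith), h7⟩

theorem Pos.smul {A : ℝ → Mat} {t d : ℝ} (h : Pos A t d) (c : ℝ) : Pos (fun s => c • A s) t d := by
  obtain ⟨H, h1, h2, h3, h5, h6, h7⟩ := h
  refine ⟨H, h1, h2, h3, h5, h6, fun i j => ?_⟩
  have := (h7 i j).const_mul c
  have e : (-(J * H * (c • A t))) i j = c * (-(J * H * A t)) i j := by
    simp only [mul_smul_comm, Matrix.smul_apply, smul_eq_mul, Matrix.neg_apply]
    ring
  rw [e]
  exact this

theorem SPos.smul {A : ℝ → Mat} {t d : ℝ} (h : SPos A t d) (c : ℝ) :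
    SPos (fun s => c • A s) t d := by
  obtain ⟨H, h1, h2, h3, h4, h5, h6, h7⟩ := h
  refine ⟨H, h1, h2, h3, h4, h5, h6, fun i j => ?_⟩
  have := (h7 i j).const_mul c
  have e : (-(J * H * (c • A t))) i j = c * (-(J * H * A t)) i j := by
    simp only [mul_smul_comm, Matrix.smul_apply, smul_eq_mul, Matrix.neg_apply]
    ring
  rw [e]
  exact this

theorem Pos.const (A : Mat) (t : ℝ) : Pos (fun _ => A) t 0 := by
  refine ⟨0, rfl, le_refl _, le_refl _, le_refl _, ?_, fun i j => ?_⟩
  · simp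
  · simpa using hasDerivAt_const t (A i j)

theorem Pos.pow (hM : T_POSMUL) {Q : ℝ → Mat} {t d : ℝ} (hdet : (Q t).det = 1) (h : Pos Q t d)
    (k : ℕ) : Pos (fun s => Q s ^ k) t (k * d) := by
  induction k with
  | zero => simpa using Pos.const 1 t
  | succ k ih =>
    have hd : ((fun s => Q s ^ k) t).det = 1 := by
      simp only [Matrix.det_pow, hdet, one_pow]
    have := (hM (fun s => Q s ^ k) Q t (k * d) d hd).1 ih h
    simp only [pow_succ]
    convert this using 1
    push_cast; ring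

theorem SPos.pow (hM : T_POSMUL) {Q : ℝ → Mat} {t d : ℝ} (hdet : (Q t).det = 1) (h : SPos Q t d)
    (k : ℕ) : SPos (fun s => Q s ^ (k + 1)) t ((k + 1 : ℕ) * d) := by
  have hd : ((fun s => Q s ^ k) t).det = 1 := by
    simp only [Matrix.det_pow, hdet, one_pow]
  have := (hM (fun s => Q s ^ k) Q t (k * d) d hd).2.2 (Pos.pow hM hdet (SPos.toPos h) k) h
  simp only [pow_succ]
  convert this using 1
  push_cast; ring

theorem entry_cont {A : ℝ → Mat} {t d : ℝ} (h : Pos A t d) (i j : Fin 2) :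
    ContinuousAt (fun s => A s i j) t := by
  obtain ⟨H, _, _, _, _, _, h7⟩ := h
  exact (h7 i j).continuousAt

theorem trace_cont {A : ℝ → Mat} {t d : ℝ} (h : Pos A t d) :
    ContinuousAt (fun s => (A s).trace) t := by
  simp only [Matrix.trace_fin_two]
  exact (entry_cont h 0 0).add (entry_cont h 1 1)

/-- near `t` the word stays applicable -/
theorem InR_near (hC : T_CONT) {lam : ℝ} (hl : 0 < lam) (w : List Sym) {c : ℝ → ℝ × ℝ} {t : ℝ}
    (hc : ContinuousAt c t) (h : ∀ᶠ s in 𝓝 t, |(c s).1| ≤ 2) (hw : InR lam w (c t)) :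
    ∀ᶠ s in 𝓝 t, InR lam w (c s) := by
  obtain ⟨_, _, h3, _⟩ := hC lam hl
  obtain ⟨U, hU, hUe⟩ := h3 w
  have hmem : c t ∈ U := by
    have : c t ∈ {p | InR lam w p} := hw
    rw [hUe] at this
    exact this.1
  filter_upwards [h, hc.preimage_mem_nhds (hU.mem_nhds hmem)] with s h1 h2
  have : c s ∈ U ∩ {p | |p.1| ≤ 2} := ⟨h2, h1⟩
  rw [← hUe] at this
  exact this

theorem MATDER (hF : T_FRAME) (hM : T_POSMUL) (hD : T_TRDER) (hC : T_CONT) : T_MATDER := by
  intro lam hl P N t d e hFr hd he hP hN w hw hR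
  induction w generalizing P N d e with
  | nil =>
    have hF0 := hFr.self_of_nhds.1
    have hQ : (N t * P t).det = 1 := by rw [Matrix.det_mul, hF0.dP, hF0.dN, one_mul]
    have hS := (hM N P t e d hF0.dN).2.1 hN hP
    obtain ⟨r, hr, hr0, hr1⟩ := (hD (fun s => N s * P s) t (e + d) hQ hR.2 hF0.hor).2 hS
    refine ⟨r, hr, hr0, ?_⟩
    simp only [drun, run]
    rw [add_comm d e]
    exact hr1
  | cons s w ih =>
    obtain ⟨hs, hw'⟩ := VW_cons.1 hw
    have hF0 := hFr.self_of_nhds.1
    have hQ : (N t * P t).det = 1 := by rw [Matrix.det_mul, hF0.dP, hF0.dN, one_mul]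
    have hSQ : SPos (fun s => N s * P s) t (e + d) := (hM N P t e d hF0.dN).2.1 hN hP
    set c : ℝ → ℝ × ℝ := fun s => ((P s).trace, (N s * P s).trace) with hc
    have hcc : ContinuousAt c t := (trace_cont hP).prodMk (trace_cont (SPos.toPos hSQ))
    have hRs : InR lam [s] (c t) := (InR_singleton lam s _).2 hR.1
    have hnear : ∀ᶠ s' in 𝓝 t, InR lam [s] (c s') := InR_near hC hl [s] hcc
      (hFr.mono fun s' h => h.2) hRs
    set P' : ℝ → Mat := fun s' => (stepM s (P s') (N s')).1 with hP'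
    set N' : ℝ → Mat := fun s' => (stepM s (P s') (N s')).2 with hN'
    have hfst : ∀ s', P' s' = N s' * P s' := by
      intro s'; simp only [hP', stepM]; split <;> rfl
    have hstep : ∀ᶠ s' in 𝓝 t, Framed lam (P' s') (N' s') ∧
        ((P' s').trace, (N' s' * P' s').trace) = stepP lam s (c s') := by
      filter_upwards [hFr, hnear] with s' h1 h2
      exact hF lam hl (P s') (N s') h1.1 s hs ((InR_singleton lam s _).1 h2)
    have hFr' : ∀ᶠ s' in 𝓝 t, Framed lam (P' s') (N' s') ∧ |(P' s').trace| ≤ 2 := by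
      filter_upwards [hstep, hnear] with s' h1 h2
      refine ⟨h1.1, ?_⟩
      have := ((InR_singleton lam s _).1 h2).2.1
      rw [hfst s']
      exact this.le
    have hPP : Pos P' t (e + d) := by
      have : P' = fun s' => N s' * P s' := funext hfst
      rw [this]; exact (SPos.toPos hSQ)
    -- the weights of N'
    obtain ⟨pos, m, i⟩ := s
    obtain ⟨hm, hi1, hi2⟩ := hs
    simp only at hm hi1 hi2
    obtain ⟨k, rfl⟩ : ∃ k, m = k + 2 := ⟨m - 2, by omega⟩
    have key : ∃ e' : ℝ, 0 ≤ e' ∧ SPos N' t e' ∧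
        (e + d, e + d + e') = dstep ⟨pos, k + 2, i⟩ (d, d + e) := by
      cases pos with
      | true =>
        refine ⟨d + ((k + 1 : ℕ) : ℝ) * (e + d), by positivity, ?_, ?_⟩
        · have h1 : SPos (fun s' => (N s' * P s') ^ (k + 1)) t (((k + 1 : ℕ) : ℝ) * (e + d)) :=
            SPos.pow hM hQ hSQ k
          have h2 := (hM P (fun s' => (N s' * P s') ^ (k + 1)) t d _ hF0.dP).2.2 hP h1
          have h3 := SPos.smul h2 ((-1 : ℝ) ^ i)
          have : N' = fun s' => ((-1 : ℝ) ^ i) • (P s' * (N s' * P s') ^ (k + 1)) := by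
            funext s'
            simp only [hN', stepM, if_true]
            congr 3
          rw [this]
          exact h3
        · simp only [dstep, Sym.e, if_true]
          ext
          · simp only; ring
          · simp only; push_cast; ring
      | false =>
        refine ⟨e + (k : ℝ) * (e + d), by positivity, ?_, ?_⟩
        · have h1 : Pos (fun s' => (N s' * P s') ^ k) t ((k : ℝ) * (e + d)) :=
            Pos.pow hM hQ (SPos.toPos hSQ) k
          have h2 := (hM N (fun s' => (N s' * P s') ^ k) t e _ hF0.dN).2.1 hN h1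
          have h3 := SPos.smul h2 ((-1 : ℝ) ^ (i + 1))
          have : N' = fun s' => ((-1 : ℝ) ^ (i + 1)) • (N s' * (N s' * P s') ^ k) := by
            funext s'
            simp only [hN', stepM, Bool.false_eq_true, if_false]
            congr 3
          rw [this]
          exact h3
        · simp only [dstep, Sym.e, Bool.false_eq_true, if_false]
          ext
          · simp only; ring
          · simp only; push_cast; ring
    obtain ⟨e', he', hNN, hdr⟩ := key
    have hst := hstep.self_of_nhds.2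
    have hR' : InR lam w ((P' t).trace, (N' t * P' t).trace) := by
      rw [hst]; exact hR.2
    obtain ⟨r, hr, hr0, hr1⟩ := ih P' N' (e + d) e' hFr' (by linarith) he' hPP hNN hw' hR'
    refine ⟨r, ?_, hr0, ?_⟩
    · apply hr.congr_of_eventuallyEq
      filter_upwards [hstep] with s' h1
      rw [h1.2]; rfl
    · rw [hst, hdr] at hr1
      exact hr1

theorem LocInc_of_deriv {f : ℝ → ℝ} {t r : ℝ} (h : HasDerivAt f r t) (hr : 0 < r) :
    LocInc f t := by
  have h1 : ∀ᶠ s in 𝓝[≠] t, 0 < slope f t s :=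
    (hasDerivAt_iff_tendsto_slope.1 h).eventually (lt_mem_nhds hr)
  constructor
  · have h2 : ∀ᶠ s in 𝓝[<] t, 0 < slope f t s :=
      nhdsWithin_mono t (fun s hs => (ne_of_lt hs)) h1
    filter_upwards [h2, self_mem_nhdsWithin] with s h3 h4
    rw [slope_def_field] at h3
    have h5 : s - t < 0 := sub_neg.2 h4
    have := (div_pos_iff.1 h3)
    rcases this with h6 | h6
    · linarith [h6.2]
    · linarith [h6.1]
  · have h2 : ∀ᶠ s in 𝓝[>] t, 0 < slope f t s :=
      nhdsWithin_mono t (fun s hs => (ne_of_gt hs)) h1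
    filter_upwards [h2, self_mem_nhdsWithin] with s h3 h4
    rw [slope_def_field] at h3
    have h5 : 0 < s - t := sub_pos.2 h4
    have := (div_pos_iff.1 h3)
    rcases this with h6 | h6
    · linarith [h6.1]
    · linarith [h6.2]

theorem MATCURVE (hMD : T_MATDER) : T_MATCURVE := by
  intro lam hl P N u v d e huv hy hcont hu hv hmono hF hd he hP hN
  refine ⟨huv, hcont, hy, hu, hv, hmono, ?_⟩
  intro w hw t ht hR
  have hev : ∀ᶠ s in 𝓝 t, Framed lam (P s) (N s) ∧ |(P s).trace| ≤ 2 := by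
    filter_upwards [Ioo_mem_nhds ht.1 ht.2] with s hs
    exact ⟨hF s hs, hy s ⟨hs.1.le, hs.2.le⟩⟩
  obtain ⟨r, hr, hr0, _⟩ := hMD lam hl P N t d e hev hd he (hP t ht) (hN t ht) w hw hR
  exact LocInc_of_deriv hr hr0

end H31.ST.H24
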