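import Pool.Agent.H24.ST.MATDER

/-! Module SLICE of MP_0b97f5_mp.  helper24 -/

open Set Filter Topology Matrix

noncomputable section

namespace H31.ST.H24

open H31.ST

/-- common end of the argument: a global matrix frame of the slice gives everything -/
theorem slice_of_frame (hMD : T_MATDER) (hMC : T_MATCURVE) {lam : ℝ} (hl : 0 < lam) {y : ℝ}
    (hy : |y| ≤ 2) (P : Mat) (N : ℝ → Mat) (e : ℝ → ℝ) (hPt : P.trace = y)
    (hQt : ∀ x, (N x * P).trace = x) (hF : ∀ x ∈ Ioo (-2 : ℝ) 2, Framed lam P (N x))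
    (he : ∀ x ∈ Ioo (-2 : ℝ) 2, 0 ≤ e x) (hN : ∀ x ∈ Ioo (-2 : ℝ) 2, SPos N x (e x))
    (heS : ∀ x ∈ Ioo (-2 : ℝ) 2, S lam y x * e x = Real.sqrt (4 - y ^ 2)) :
    Curve lam (fun x => (y, x)) (-2) 2 ∧
  ∀ w : List Sym, VW w → ∀ x ∈ Ioo (-2 : ℝ) 2, InR lam w (y, x) →
    ∃ r, HasDerivAt (fun x' => (run lam w (y, x')).2) r x ∧ 0 < r ∧
      deg w * Real.sqrt (4 - (run lam w (y, x)).2 ^ 2) * Real.sqrt (4 - y ^ 2) ≤ S lam y x * r := by
  have hPc : ∀ x, Pos (fun _ : ℝ => P) x 0 := fun x => Pos.const P x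
  constructor
  · have := hMC lam hl (fun _ => P) N (-2) 2 0 0 (by norm_num)
      (fun t _ => by rw [hPt]; exact hy)
      (by simp only [hPt, hQt]; fun_prop)
      (hQt _) (hQt _) (by intro a _ b _ hab; simp only [hQt]; exact hab)
      (fun t ht => hF t ht) (le_refl _) (le_refl _) (fun t _ => hPc t)
      (fun t ht => SPos.mono (hN t ht) (le_refl _) (he t ht))
    simp only [hPt, hQt] at this
    exact this
  · intro w hw x hx hR
    have hev : ∀ᶠ s in 𝓝 x, Framed lam P (N s) ∧ |P.trace| ≤ 2 := by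
      filter_upwards [Ioo_mem_nhds hx.1 hx.2] with s hs
      exact ⟨hF s hs, by rw [hPt]; exact hy⟩
    obtain ⟨r, hr, hr0, hr1⟩ := hMD lam hl (fun _ => P) N x 0 (e x) hev (le_refl _) (he x hx)
      (hPc x) (hN x hx) w hw (by simp only [hPt, hQt]; exact hR)
    simp only [hPt, hQt] at hr hr1
    refine ⟨r, hr, hr0, ?_⟩
    have h1 : (drun w (0, 0 + e x)).2 = e x * deg w := by
      have := drun_smul w (e x) (0, 1)
      simp only [mul_zero, mul_one] at this
      rw [zero_add, this]
      rfl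
    rw [h1] at hr1
    have hS : 0 ≤ S lam y x := Real.sqrt_nonneg _
    rw [← heS x hx]
    calc deg w * Real.sqrt (4 - (run lam w (y, x)).2 ^ 2) * (S lam y x * e x)
        = S lam y x * (e x * deg w * Real.sqrt (4 - (run lam w (y, x)).2 ^ 2)) := by ring
      _ ≤ S lam y x * r := mul_le_mul_of_nonneg_left hr1 hS

theorem S_two {lam x : ℝ} (hl : 0 < lam) : S lam 2 x = 2 * lam := by
  unfold S
  rw [show (4 - x ^ 2) * (4 - (2:ℝ) ^ 2) + 4 * lam ^ 2 = (2 * lam) ^ 2 by ring,
    Real.sqrt_sq (by linarith)]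

theorem S_neg_two {lam x : ℝ} (hl : 0 < lam) : S lam (-2) x = 2 * lam := by
  rw [S_neg, S_two hl]

theorem slice_two (hMD : T_MATDER) (hMC : T_MATCURVE) {lam : ℝ} (hl : 0 < lam) (ε : ℝ)
    (hε : ε = 1 ∨ ε = -1) :
    Curve lam (fun x => (2 * ε, x)) (-2) 2 ∧
  ∀ w : List Sym, VW w → ∀ x ∈ Ioo (-2 : ℝ) 2, InR lam w (2 * ε, x) →
    ∃ r, HasDerivAt (fun x' => (run lam w (2 * ε, x')).2) r x ∧ 0 < r ∧
      deg w * Real.sqrt (4 - (run lam w (2 * ε, x)).2 ^ 2) * Real.sqrt (4 - (2 * ε) ^ 2)
        ≤ S lam (2 * ε) x * r := by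
  have hε2 : ε * ε = 1 := by rcases hε with h | h <;> rw [h] <;> norm_num
  have hSS : ∀ x, S lam (2 * ε) x = 2 * lam := by
    intro x
    rcases hε with h | h
    · rw [h, mul_one, S_two hl]
    · rw [h, show (2:ℝ) * -1 = -2 by ring, S_neg_two hl]
  apply slice_of_frame hMD hMC hl (y := 2 * ε) _ !![ε, -lam; 0, ε]
    (fun x => !![ε * x, lam * x - ε; ε, lam]) (fun _ => 0)
  · rw [Matrix.trace_fin_two]; simp; ring
  · intro x
    rw [Matrix.trace_fin_two]
    simp [Matrix.mul_apply, Fin.sum_univ_two]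
    linear_combination x * hε2
  · intro x hx
    have hNP : !![ε * x, lam * x - ε; ε, lam] * !![ε, -lam; 0, ε] = (!![x, -1; 1, 0] : Mat) := by
      ext i j
      fin_cases i <;> fin_cases j <;> simp [Matrix.mul_apply, Fin.sum_univ_two]
      · linear_combination x * hε2
      · linear_combination -hε2
      · linear_combination hε2
      · ring
    refine ⟨?_, ?_, ?_, ?_⟩
    · rw [Matrix.det_fin_two]; simp [hε2]
    · rw [Matrix.det_fin_two]; simp; linear_combination hε2
    · rw [hNP]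
      unfold zz
      have h1 : (!![ε, -lam; 0, ε] : Mat).trace = 2 * ε := by
        rw [Matrix.trace_fin_two]; simp; ring
      have h2 : (!![x, -1; 1, 0] : Mat).trace = x := by
        rw [Matrix.trace_fin_two]; simp
      rw [h1, h2, hSS]
      rw [Matrix.trace_fin_two]
      simp [Matrix.mul_apply, Fin.sum_univ_two]
      ring
    · rw [hNP]; simp
  · intro x _; exact le_refl _
  · intro x _
    refine ⟨!![0, 0; 0, 1], ?_, ?_, ?_, ?_, ?_, ?_, ?_⟩
    · simp
    · simp
    · simp
    · simp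
    · exact le_refl _
    · simp
    · intro i j
      have hJ : -(J * !![0, 0; 0, 1] * !![ε * x, lam * x - ε; ε, lam]) = (!![ε, lam; 0, 0] : Mat) := by
        ext i j
        fin_cases i <;> fin_cases j <;> simp [J, Matrix.mul_apply, Fin.sum_univ_two]
      rw [hJ]
      fin_cases i <;> fin_cases j <;> simp
      · simpa using (hasDerivAt_id x).const_mul ε
      · simpa using ((hasDerivAt_id x).const_mul lam).sub_const ε
      · exact hasDerivAt_const x ε
      · exact hasDerivAt_const x lam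
  · intro x _
    rw [mul_zero]
    rw [show 4 - (2 * ε) ^ 2 = 0 by linear_combination -4 * hε2, Real.sqrt_zero]
  · rcases hε with h | h <;> rw [h] <;> norm_num

theorem JQ (k k' A s c : ℝ) (hA : A ≠ 0) (hs : s ≠ 0) (hkk : k * k' = 1) :
    -(J * !![k' ^ 2 / (A * s), 0; 0, k ^ 2 / (A * s)] * !![k * c, -(k * s); k' * s, k' * c])
      = (!![k / A, k * c / (A * s); -(k' * c / (A * s)), k' / A] : Mat) := by
  ext i j
  fin_cases i <;> fin_cases j <;> simp [J, Matrix.mul_apply, Fin.sum_univ_two]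
  · have : k ^ 2 / (A * s) * (k' * s) = k * (k * k') / A := by field_simp
    rw [this, hkk]; ring
  · have : k ^ 2 / (A * s) * (k' * c) = k * (k * k') * c / (A * s) := by ring
    rw [this, hkk]; ring
  · have : k' ^ 2 / (A * s) * (k * c) = k' * (k * k') * c / (A * s) := by ring
    rw [this, hkk]; ring
  · have : k' ^ 2 / (A * s) * (k * s) = k' * (k * k') / A := by field_simp
    rw [this, hkk]; ring

theorem slice_int (hMD : T_MATDER) (hMC : T_MATCURVE) {lam : ℝ} (hl : 0 < lam) {y : ℝ}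
    (hy : |y| < 2) :
    Curve lam (fun x => (y, x)) (-2) 2 ∧
  ∀ w : List Sym, VW w → ∀ x ∈ Ioo (-2 : ℝ) 2, InR lam w (y, x) →
    ∃ r, HasDerivAt (fun x' => (run lam w (y, x')).2) r x ∧ 0 < r ∧
      deg w * Real.sqrt (4 - (run lam w (y, x)).2 ^ 2) * Real.sqrt (4 - y ^ 2) ≤ S lam y x * r := by
  have hy4 : 0 < 4 - y ^ 2 := by
    have := abs_lt.1 hy
    nlinarith
  set σ : ℝ := Real.sqrt (4 - y ^ 2) / 2 with hσ
  have hσ0 : 0 < σ := by positivity
  have hσ2 : 4 * σ ^ 2 = 4 - y ^ 2 := by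
    rw [hσ, div_pow, Real.sq_sqrt hy4.le]; ring
  set A : ℝ := 2 * Real.sqrt ((4 + lam ^ 2 - y ^ 2) / (4 - y ^ 2)) with hA
  have hq : 0 < (4 + lam ^ 2 - y ^ 2) / (4 - y ^ 2) := by
    apply div_pos _ hy4
    nlinarith [sq_nonneg lam]
  have hA2 : A ^ 2 * (4 - y ^ 2) = 4 * (4 + lam ^ 2 - y ^ 2) := by
    rw [hA, mul_pow, Real.sq_sqrt hq.le]
    field_simp
    ring
  have hA0 : 0 < A := by positivity
  have hA4 : 4 < A ^ 2 := by
    by_contra h
    have := mul_le_mul_of_nonneg_right (not_lt.1 h) hy4.le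
    nlinarith [pow_pos hl 2]
  have hA2' : 2 < A := by nlinarith
  set ρ : ℝ := Real.sqrt (A ^ 2 - 4) with hρ
  have hρ2 : ρ ^ 2 = A ^ 2 - 4 := Real.sq_sqrt (by linarith)
  have hρ0 : 0 ≤ ρ := Real.sqrt_nonneg _
  have hρA : ρ < A := by nlinarith
  set k : ℝ := (A + ρ) / 2 with hk
  set k' : ℝ := (A - ρ) / 2 with hk'
  have hk0 : 0 < k := by rw [hk]; linarith
  have hk'0 : 0 < k' := by rw [hk']; linarith
  have hkk : k * k' = 1 := by rw [hk, hk']; nlinarith
  have hks : k + k' = A := by rw [hk, hk']; ring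
  set c : ℝ → ℝ := fun x => x / A with hc
  set s : ℝ → ℝ := fun x => Real.sqrt (1 - (x / A) ^ 2) with hs
  have hin : ∀ x ∈ Ioo (-2 : ℝ) 2, 0 < 1 - (x / A) ^ 2 := by
    intro x hx
    have h1 : x ^ 2 < A ^ 2 := by nlinarith [hx.1, hx.2]
    rw [div_pow, sub_pos, div_lt_one (by positivity)]
    exact h1
  have hs0 : ∀ x ∈ Ioo (-2 : ℝ) 2, 0 < s x := fun x hx => Real.sqrt_pos.2 (hin x hx)
  have hs2 : ∀ x ∈ Ioo (-2 : ℝ) 2, s x ^ 2 = 1 - c x ^ 2 := fun x hx =>
    Real.sq_sqrt (hin x hx).le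
  have hcA : ∀ x, A * c x = x := by intro x; simp only [hc]; field_simp
  have hS : ∀ x ∈ Ioo (-2 : ℝ) 2, S lam y x = 2 * σ * (A * s x) := by
    intro x hx
    have h0 : 0 ≤ 2 * σ * (A * s x) := by
      have := hs0 x hx
      positivity
    unfold S
    rw [Real.sqrt_eq_iff_mul_self_eq_of_pos]
    · have h1 := hs2 x hx
      have h2 := hcA x
      have h3 : (2 * σ * (A * s x)) * (2 * σ * (A * s x)) = 4 * σ ^ 2 * (A ^ 2 * s x ^ 2) := by ring
      rw [h3, h1, hσ2]
      have h4 : A ^ 2 * (1 - c x ^ 2) = A ^ 2 - x ^ 2 := by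
        have : A ^ 2 * (1 - c x ^ 2) = A ^ 2 - (A * c x) ^ 2 := by ring
        rw [this, h2]
      rw [h4]
      linear_combination hA2
    · have := hs0 x hx
      positivity
  set P : Mat := !![y / 2, -σ; σ, y / 2] with hP
  set Q : ℝ → Mat := fun x => !![k * c x, -(k * s x); k' * s x, k' * c x] with hQ
  set P' : Mat := !![y / 2, σ; -σ, y / 2] with hP'
  have hyσ : y / 2 * (y / 2) + σ * σ = 1 := by nlinarith
  have hPP : P' * P = 1 := by
    rw [hP, hP']
    ext i j
    fin_cases i <;> fin_cases j <;> simp [Matrix.mul_apply, Fin.sum_univ_two]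
    · linarith
    · ring
    · ring
    · linarith
  have hNP : ∀ x, Q x * P' * P = Q x := by
    intro x; rw [Matrix.mul_assoc, hPP, Matrix.mul_one]
  have hPt : P.trace = y := by rw [hP, Matrix.trace_fin_two]; simp
  have hQt : ∀ x, (Q x).trace = x := by
    intro x; rw [Matrix.trace_fin_two]; simp [hQ]
    have := hcA x
    rw [← hks] at this
    linarith
  have hdQ : ∀ x ∈ Ioo (-2 : ℝ) 2, (Q x).det = 1 := by
    intro x hx
    rw [Matrix.det_fin_two]
    simp [hQ]
    have := hs2 x hx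
    have e : k * c x * (k' * c x) + k * s x * (k' * s x) = k * k' * (c x ^ 2 + s x ^ 2) := by ring
    rw [e, hkk, this]; ring
  apply slice_of_frame hMD hMC hl hy.le P (fun x => Q x * P') (fun x => 1 / (A * s x)) hPt
  · intro x; simp only [hNP, hQt]
  · intro x hx
    refine ⟨?_, ?_, ?_, ?_⟩
    · rw [hP, Matrix.det_fin_two]; simp; linarith
    · have : P'.det = 1 := by rw [hP', Matrix.det_fin_two]; simp; linarith
      rw [Matrix.det_mul, this, hdQ x hx, one_mul]
    · rw [hNP, hPt, hQt]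
      unfold zz
      rw [hS x hx, Matrix.trace_fin_two]
      simp [hP, hQ, Matrix.mul_apply, Fin.sum_univ_two]
      have := hcA x
      rw [← hks] at this ⊢
      linear_combination (y / 2) * this
    · rw [hNP]
      simp [hQ]
      exact mul_pos hk'0 (hs0 x hx)
  · intro x hx
    have := hs0 x hx
    positivity
  · intro x hx
    have hsx := hs0 x hx
    have hAs : 0 < A * s x := mul_pos hA0 hsx
    have hds : HasDerivAt s (-(c x) / (A * s x)) x := by
      have h1 : HasDerivAt (fun x => 1 - (x / A) ^ 2) (-(2 * (x / A) * (1 / A))) x := by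
        have := (((hasDerivAt_id x).div_const A).pow 2).const_sub 1
        simpa using this
      have h2 := h1.sqrt (hin x hx).ne'
      convert h2 using 1
      simp only [hc, hs]
      field_simp
    have hdc : HasDerivAt c (1 / A) x := by
      simpa [hc] using (hasDerivAt_id x).div_const A
    set H : Mat := !![k' ^ 2 / (A * s x), 0; 0, k ^ 2 / (A * s x)] with hH
    have hJQ : -(J * H * Q x)
        = !![k / A, k * c x / (A * s x); -(k' * c x / (A * s x)), k' / A] := by
      exact JQ k k' A (s x) (c x) hA0.ne' hsx.ne' hkk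
    have hQd : ∀ i j, HasDerivAt (fun x => Q x i j) ((-(J * H * Q x)) i j) x := by
      intro i j
      rw [hJQ]
      have e1 : HasDerivAt (fun x => k * c x) (k / A) x := by
        have := hdc.const_mul k
        rwa [mul_one_div] at this
      have e2 : HasDerivAt (fun x => -(k * s x)) (k * c x / (A * s x)) x := by
        have := (hds.const_mul k).neg
        have e : -(k * (-(c x) / (A * s x))) = k * c x / (A * s x) := by ring
        rwa [e] at this
      have e3 : HasDerivAt (fun x => k' * s x) (-(k' * c x / (A * s x))) x := by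
        have := hds.const_mul k'
        have e : k' * (-(c x) / (A * s x)) = -(k' * c x / (A * s x)) := by ring
        rwa [e] at this
      have e4 : HasDerivAt (fun x => k' * c x) (k' / A) x := by
        have := hdc.const_mul k'
        rwa [mul_one_div] at this
      fin_cases i <;> fin_cases j
      · simpa [hQ] using e1
      · simpa [hQ] using e2
      · simpa [hQ] using e3
      · simpa [hQ] using e4
    refine ⟨H, ?_, ?_, ?_, ?_, ?_, ?_, ?_⟩
    · simp [hH]
    · simp [hH]; positivity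
    · simp [hH]; positivity
    · simp [hH]; positivity
    · positivity
    · rw [Matrix.det_fin_two]
      simp only [hH, Matrix.of_apply, Matrix.cons_val', Matrix.cons_val_zero, Matrix.cons_val_one,
        Matrix.cons_val_fin_one, mul_zero, sub_zero]
      have : k' ^ 2 / (A * s x) * (k ^ 2 / (A * s x)) = (1 / (A * s x)) ^ 2 := by
        field_simp
        have : k' ^ 2 * k ^ 2 = (k * k') ^ 2 := by ring
        rw [this, hkk]; ring
      rw [this]
    · intro i j
      have e : -(J * H * (Q x * P')) = (-(J * H * Q x)) * P' := by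
        rw [← Matrix.mul_assoc, Matrix.neg_mul]
      rw [e]
      simp only [Matrix.mul_apply, Fin.sum_univ_two]
      exact ((hQd i 0).mul_const (P' 0 j)).add ((hQd i 1).mul_const (P' 1 j))
  · intro x hx
    have hsx := hs0 x hx
    rw [hS x hx]
    rw [hσ]
    field_simp

theorem SLICE (hMD : T_MATDER) (hMC : T_MATCURVE) : T_SLICE := by
  intro lam hl y hy
  rcases lt_or_eq_of_le hy with h | h
  · exact slice_int hMD hMC hl h
  · rcases eq_or_eq_neg_of_abs_eq h with h1 | h1
    · have := slice_two hMD hMC hl 1 (Or.inl rfl)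
      rw [mul_one] at this
      rw [h1]; exact this
    · have := slice_two hMD hMC hl (-1) (Or.inr rfl)
      rw [show (2:ℝ) * -1 = -2 by ring] at this
      rw [h1]; exact this

end H31.ST.H24
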